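import Mathlib

set_option autoImplicit false

namespace Pool.Agent.H.MP_829a29_al

universe u

/-- Loop terms in `n` variables with constants from `Q`. -/
inductive Tm (Q : Type u) (n : ℕ) : Type u
  | var : Fin n → Tm Q n
  | const : Q → Tm Q n
  | mul : Tm Q n → Tm Q n → Tm Q n
  | ldiv : Tm Q n → Tm Q n → Tm Q n
  | rdiv : Tm Q n → Tm Q n → Tm Q n

/-- The polynomial operation given by a term. -/
def Tm.eval {Q : Type u} [Mul Q] (ld rd : Q → Q → Q) {n : ℕ} (x : Fin n → Q) : Tm Q n → Q
  | .var i => x i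
  | .const q => q
  | .mul s t => s.eval ld rd x * t.eval ld rd x
  | .ldiv s t => ld (s.eval ld rd x) (t.eval ld rd x)
  | .rdiv s t => rd (s.eval ld rd x) (t.eval ld rd x)

/-- The multiplication group: generated by all left and right translations. -/
def Mlt (Q : Type u) [Mul Q] : Subgroup (Equiv.Perm Q) :=
  Subgroup.closure {σ : Equiv.Perm Q | ∃ a : Q, (∀ x, σ x = a * x) ∨ (∀ x, σ x = x * a)}

end Pool.Agent.H.MP_829a29_al
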