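import Pool.Agent.H.MP_829a29_al.Defs
import Pool.Agent.H.MP_5a0037_al.Main

set_option autoImplicit false

namespace Pool.Agent.H.MP_829a29_al

universe u

theorem main (Q : Type u) [MulOneClass Q] (ld rd : Q → Q → Q)
    (hld : ∀ a b x : Q, ld a b = x ↔ a * x = b) (hrd : ∀ a b x : Q, rd b a = x ↔ x * a = b)
    [Group.IsNilpotent (Mlt Q)] (n : ℕ)
    (hn : 2 * (2 * Group.nilpotencyClass (Mlt Q)) ^ Group.nilpotencyClass (Mlt Q) < n)
    (t : Tm Q n) (habs : ∀ x : Fin n → Q, (∃ i, x i = 1) → t.eval ld rd x = 1)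
    (x : Fin n → Q) : t.eval ld rd x = 1 := by
  obtain ⟨n, rfl⟩ : ∃ m, n = m + 1 := ⟨n - 1, by omega⟩
  let L : Q → Mlt Q := fun a =>
    ⟨⟨fun y => a * y, fun y => ld a y, fun y => (hld _ _ _).2 rfl, fun y => (hld _ _ _).1 rfl⟩,
      Subgroup.subset_closure ⟨a, Or.inl fun _ => rfl⟩⟩
  let R : Q → Mlt Q := fun a =>
    ⟨⟨fun y => y * a, fun y => rd y a, fun y => (hrd _ _ _).2 rfl, fun y => (hrd _ _ _).1 rfl⟩,
      Subgroup.subset_closure ⟨a, Or.inr fun _ => rfl⟩⟩
  have key := Pool.Agent.H.MP_5a0037_al.main (G := Mlt Q) (Q := Q)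
    (c := Group.nilpotencyClass (Mlt Q)) (upperCentralSeries_nilpotencyClass) L R
    (fun _ _ => rfl) (fun _ _ => rfl) n (by omega) 1
    (fun y z => t.eval ld rd (Fin.cons (z 0) (fun i => y i 0))) ?_
    (fun _ _ => 1) (fun i _ => x i.succ) (fun _ => 1) (fun _ => x 0) ?_
  · have e : (Fin.cons (x 0) (fun i => x i.succ) : Fin (n + 1) → Q) = x := by
      funext i
      refine Fin.cases ?_ (fun j => ?_) i <;> simp
    simp only [e] at key
    rw [← key]
    exact habs _ ⟨0, by simp⟩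
  · intro S h1 h2 h3 h4 h5 h6
    clear habs
    induction t with
    | var i =>
      refine Fin.cases ?_ (fun j => ?_) i
      · simpa [Tm.eval] using h2 0
      · simpa [Tm.eval] using h1 j 0
    | const q => exact h3 q
    | mul s t ihs iht => exact h4 _ ihs _ iht
    | ldiv s t ihs iht => exact h5 _ ihs _ iht _ fun y z => (hld _ _ _).1 rfl
    | rdiv s t ihs iht => exact h6 _ iht _ ihs _ fun y z => (hrd _ _ _).1 rfl
  · intro s hs
    obtain ⟨i, hi⟩ : ∃ i, s i = false := by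
      by_contra h
      exact hs (funext fun i => by simpa using fun h' => h ⟨i, h'⟩)
    rw [habs _ ⟨i.succ, by simp [hi]⟩, habs _ ⟨i.succ, by simp [hi]⟩]

end Pool.Agent.H.MP_829a29_al
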